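import Mathlib
import Pool.Agent.H46.MaderMain

set_option autoImplicit false

namespace Pool.Agent.Results.MP_4a0681_co.LinearInS

/-- `G` is `k`-connected: more than `k` vertices and no set of fewer than `k` vertices
disconnects it. -/
def KConnected {V : Type} [Fintype V] (G : SimpleGraph V) (k : ℕ) : Prop :=
  k < Fintype.card V ∧ ∀ S : Finset V, S.card < k → (G.induce ((S : Set V)ᶜ)).Connected

/-- The graph spanned by the edge set `F` (its vertices are the ends of the edges in `F`)
is `k`-connected. -/
def SpansKConnected {V : Type} (F : Set (Sym2 V)) (k : ℕ) : Prop :=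
  k < (SimpleGraph.fromEdgeSet F).support.ncard ∧
    ∀ S : Finset V, S.card < k →
      ((SimpleGraph.fromEdgeSet F).induce
        ((SimpleGraph.fromEdgeSet F).support \ (S : Set V))).Connected

/-- The edge set of `G` has a partition into a set spanning an `s`-connected graph and a set
spanning a `t`-connected graph. -/
def HasPartition {V : Type} (G : SimpleGraph V) (s t : ℕ) : Prop :=
  ∃ A : Set (Sym2 V), A ⊆ G.edgeSet ∧ SpansKConnected A s ∧ SpansKConnected (G.edgeSet \ A) t

/-- For all `s, t ≥ 2` and every `u` with `u (s + u + 2t - 4) ≥ 2 (t - 1) s`, every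
`s`-connected graph of minimum degree at least `s + 4 (t - 1) + u` has an edge partition into an
`s`-connected and a `t`-connected graph. (Both `u = s` and `u = 2 (t - 1)` are admissible, and a
`k`-connected graph has minimum degree at least `k`.) -/
theorem result (s t u : ℕ) (hs : 2 ≤ s) (ht : 2 ≤ t)
    (hu : 2 * (t - 1) * s ≤ u * (s + u + 2 * t - 4))
    (V : Type) [Fintype V] (G : SimpleGraph V) (hG : KConnected G s)
    (hdeg : ∀ v, s + 4 * (t - 1) + u ≤ (G.neighborSet v).ncard) :
    HasPartition G s t :=
  Pool.Agent.H46.main_degree s t u hs ht hu G hG hdeg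

end Pool.Agent.Results.MP_4a0681_co.LinearInS
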